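import Pool.Agent.Helper62.HX.Stm
import Pool.Agent.Helper4.BX.W

/-!
# `H_W`
-/

set_option autoImplicit false

open Polynomial Matrix Finset NumberField IsDedekindDomain

namespace Pool.Agent.Helper4.HX

open Pool.Agent.Helper62.BM Pool.Agent.Helper62.BW Pool.Agent.Helper62.BX Pool.Agent.Helper90.BM
  Pool.Agent.Helper4.BM Pool.Agent.Helper4.BW Pool.Agent.Helper4.BX Pool.Agent.Helper62.VX
  Pool.Agent.Helper62.HX

section maps

theorem map_bE {A B : Type} [CommRing A] [CommRing B] (φ : A →+* B) (g : ℕ) (G : A[X])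
    (l : Fin (2 * g)) : (bE g G l).map φ = bE g (G.map φ) l := by
  unfold bE
  split_ifs
  · rw [Polynomial.map_pow, Polynomial.map_X]
  · rw [Polynomial.map_mul, Polynomial.map_pow, Polynomial.map_X]

theorem map_QE {A B : Type} [CommRing A] [CommRing B] (φ : A →+* B) (g : ℕ) (G H : A[X])
    (m n : Fin (2 * g)) : φ (QE g G H m n) = QE g (G.map φ) (H.map φ) m n := by
  unfold QE
  rw [Matrix.of_apply, Matrix.of_apply]
  split_ifs
  · rw [map_mul, map_sub, map_natCast, map_natCast, coeff_map]
  · rw [map_neg, map_mul, map_mul, map_natCast, coeff_map, map_ofNat]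
  · rw [map_mul, map_mul, map_natCast, coeff_map, map_ofNat]
  · rw [map_zero]

variable {A B : Type} [CommRing A] [CommRing B] {g : ℕ} (φ : A →+* B)

theorem map_relE {G H : A[X][X]} {W : A[X]} {P S : Fin (2 * g) → A[X][X]}
    {M : Matrix (Fin (2 * g)) (Fin (2 * g)) A[X]} (h : RelE g G H W P S M) :
    RelE g (G.map (mapRingHom φ)) (H.map (mapRingHom φ)) (W.map φ)
      (fun l => (P l).map (mapRingHom φ)) (fun l => (S l).map (mapRingHom φ))
      (M.map (mapRingHom φ)) := by
  intro l
  obtain ⟨h1, h2, h3, h4⟩ := h l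
  refine ⟨natDegree_map_le.trans h1, natDegree_map_le.trans h2, ?_, ?_⟩
  · have h5 := congrArg (fun q => Polynomial.map (mapRingHom φ) q) h3
    simp only [Polynomial.map_mul, Polynomial.map_add, Polynomial.map_pow, Polynomial.map_C,
      Polynomial.map_ofNat, map_dt, map_bE, coe_mapRingHom] at h5
    rw [← derivative_map] at h5
    simp only [Polynomial.map_add, Polynomial.map_pow] at h5
    exact h5
  · have h5 := congrArg (fun q => Polynomial.map (mapRingHom φ) q) h4
    simp only [Polynomial.map_mul, Polynomial.map_sub, Polynomial.map_sum, Polynomial.map_C,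
      Polynomial.map_ofNat, map_dt, map_bE, coe_mapRingHom] at h5
    rw [← derivative_map] at h5
    exact h5

variable [IsDomain A] [IsDomain B]

theorem sep_down (hφ : Function.Injective φ) {F : A[X][X]}
    (h : ((F.map (mapRingHom φ)).map (algebraMap B[X] (FractionRing B[X]))).Separable) :
    (F.map (algebraMap A[X] (FractionRing A[X]))).Separable := by
  have hinj : Function.Injective ((algebraMap B[X] (FractionRing B[X])).comp (mapRingHom φ)) :=
    (IsFractionRing.injective B[X] (FractionRing B[X])).comp (Polynomial.map_injective φ hφ)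
  set L' : FractionRing A[X] →+* FractionRing B[X] :=
    IsFractionRing.lift (K := FractionRing A[X]) hinj with hL
  have h3 : L'.comp (algebraMap A[X] (FractionRing A[X])) =
      (algebraMap B[X] (FractionRing B[X])).comp (mapRingHom φ) := by
    refine RingHom.ext fun x => ?_
    rw [RingHom.comp_apply, hL, IsFractionRing.lift_algebraMap]
  rw [← separable_map L', Polynomial.map_map, h3, ← Polynomial.map_map]
  exact h

theorem sep_up (hφ : Function.Injective φ) {F : A[X][X]}
    (h : (F.map (algebraMap A[X] (FractionRing A[X]))).Separable) :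
    ((F.map (mapRingHom φ)).map (algebraMap B[X] (FractionRing B[X]))).Separable := by
  obtain ⟨u, v, r, hr, huv⟩ := sep_clear F h
  have h4 := sep_map ((algebraMap B[X] (FractionRing B[X])).comp (mapRingHom φ)) F u v r huv (by
    intro h0
    rw [RingHom.comp_apply] at h0
    have h5 := (IsFractionRing.injective B[X] (FractionRing B[X])) (h0.trans (map_zero _).symm)
    exact hr (Polynomial.map_injective φ hφ (by rw [Polynomial.map_zero]; exact h5)))
  rwa [← Polynomial.map_map] at h4

theorem genE_map (hφ : Function.Injective φ) {G H : A[X][X]} (h : GenE g G H) :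
    GenE g (G.map (mapRingHom φ)) (H.map (mapRingHom φ)) := by
  obtain ⟨h1, h2, h3, h4⟩ := h
  refine ⟨h1.map _, by rw [h1.natDegree_map, h2], natDegree_map_le.trans h3, ?_⟩
  have := sep_up φ hφ h4
  rwa [Polynomial.map_add, Polynomial.map_pow] at this

theorem genE_down (hφ : Function.Injective φ) {G H : A[X][X]}
    (h : GenE g (G.map (mapRingHom φ)) (H.map (mapRingHom φ))) : GenE g G H := by
  have hφ' : Function.Injective (mapRingHom φ) := Polynomial.map_injective φ hφ
  obtain ⟨h1, h2, h3, h4⟩ := h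
  refine ⟨(Function.Injective.monic_map_iff hφ').2 h1, ?_, ?_, ?_⟩
  · rwa [natDegree_map_eq_of_injective hφ'] at h2
  · rwa [natDegree_map_eq_of_injective hφ'] at h3
  · apply sep_down φ hφ
    rw [Polynomial.map_add, Polynomial.map_pow]
    exact h4

theorem famE_map (hφ : Function.Injective φ) {G H : A[X][X]} {D : Dat A g}
    {P S : Fin (2 * g) → A[X][X]} (h : FamE g G H D P S) :
    FamE g (G.map (mapRingHom φ)) (H.map (mapRingHom φ)) (D.map φ)
      (fun l => (P l).map (mapRingHom φ)) (fun l => (S l).map (mapRingHom φ)) := by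
  obtain ⟨h1, h2, h3⟩ := h
  refine ⟨genE_map φ hφ h1, ?_, ?_⟩
  · rw [map_W]
    exact map_relE φ h2
  · show D.Q.map (mapRingHom φ) = _
    rw [h3]
    ext1 i j
    rw [Matrix.map_apply, map_QE]

end maps

section ring

theorem lift2 {A L : Type} [CommRing A] [CommRing L] (ψ : A →+* L) (q : L[X][X])
    (h : ∀ i j, ∃ a, ψ a = (q.coeff i).coeff j) : ∃ q' : A[X][X], q'.map (mapRingHom ψ) = q := by
  have h1 : q ∈ Polynomial.lifts (mapRingHom ψ) := (Polynomial.lifts_iff_coeff_lifts q).2 fun n => by
    have h2 : q.coeff n ∈ Polynomial.lifts ψ :=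
      (Polynomial.lifts_iff_coeff_lifts (q.coeff n)).2 fun j => h n j
    obtain ⟨c, hc⟩ := (Polynomial.mem_lifts _).1 h2
    exact ⟨c, hc⟩
  exact (Polynomial.mem_lifts _).1 h1

theorem exists_ringE {R L : Type} [CommRing R] [IsDomain R] [Field L] [Algebra R L] (F : R[X][X])
    (G H : L[X][X]) (hF : F.map (mapRingHom (algebraMap R L)) = G ^ 2 + H)
    (t₀ x₀ : L) (f₁ : L[X]) (hN : Node1 (G ^ 2 + H) t₀ x₀ f₁) :
    ∃ (A : Subalgebra R L), A.FG ∧ ∃ (G' H' : A[X][X]) (t x : A) (f : A[X]),
      G'.map (mapRingHom (A.val : A →+* L)) = G ∧ H'.map (mapRingHom (A.val : A →+* L)) = H ∧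
      F.map (mapRingHom (algebraMap R A)) = G' ^ 2 + H' ∧
      Node1 (G' ^ 2 + H') t x f := by
  classical
  set S : Finset L := {t₀, x₀} ∪ f₁.coeffs ∪ (G.coeffs.biUnion fun q => q.coeffs) ∪
    (H.coeffs.biUnion fun q => q.coeffs) with hS
  set A : Subalgebra R L := Algebra.adjoin R (S : Set _) with hA
  have hsub : ∀ y ∈ S, y ∈ A := fun y hy => Algebra.subset_adjoin hy
  have ht : t₀ ∈ A := hsub _ (by rw [hS]; simp)
  have hx : x₀ ∈ A := hsub _ (by rw [hS]; simp)
  have hf : ∀ n, f₁.coeff n ∈ A := by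
    intro n
    by_cases h : f₁.coeff n = 0
    · rw [h]; exact A.zero_mem
    · exact hsub _ (by
        rw [hS]
        exact Finset.mem_union_left _ (Finset.mem_union_left _
          (Finset.mem_union_right _ (coeff_mem_coeffs h))))
  have hGc : ∀ i j, (G.coeff i).coeff j ∈ A := by
    intro i j
    by_cases h : (G.coeff i).coeff j = 0
    · rw [h]; exact A.zero_mem
    · have h' : G.coeff i ≠ 0 := by
        intro h0
        rw [h0, coeff_zero] at h
        exact h rfl
      exact hsub _ (by
        rw [hS]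
        exact Finset.mem_union_left _ (Finset.mem_union_right _
          (Finset.mem_biUnion.2 ⟨_, coeff_mem_coeffs h', coeff_mem_coeffs h⟩)))
  have hHc : ∀ i j, (H.coeff i).coeff j ∈ A := by
    intro i j
    by_cases h : (H.coeff i).coeff j = 0
    · rw [h]; exact A.zero_mem
    · have h' : H.coeff i ≠ 0 := by
        intro h0
        rw [h0, coeff_zero] at h
        exact h rfl
      exact hsub _ (by
        rw [hS]
        exact Finset.mem_union_right _
          (Finset.mem_biUnion.2 ⟨_, coeff_mem_coeffs h', coeff_mem_coeffs h⟩))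
  set ψ : A →+* L := (A.val : A →+* L) with hψ
  have hval : Function.Injective ψ := Subtype.val_injective
  obtain ⟨f, hff⟩ : ∃ f : A[X], f.map ψ = f₁ := by
    have h1 : f₁ ∈ Polynomial.lifts ψ := (Polynomial.lifts_iff_coeff_lifts f₁).2 fun n =>
      ⟨⟨f₁.coeff n, hf n⟩, rfl⟩
    exact (Polynomial.mem_lifts _).1 h1
  obtain ⟨G', hG'⟩ := lift2 ψ G fun i j => ⟨⟨_, hGc i j⟩, rfl⟩
  obtain ⟨H', hH'⟩ := lift2 ψ H fun i j => ⟨⟨_, hHc i j⟩, rfl⟩
  have hFF : (F.map (mapRingHom (algebraMap R A))).map (mapRingHom ψ) =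
      F.map (mapRingHom (algebraMap R L)) := by
    rw [Polynomial.map_map, mapRingHom_comp]
    rfl
  have hGH : (G' ^ 2 + H').map (mapRingHom ψ) = G ^ 2 + H := by
    rw [Polynomial.map_add, Polynomial.map_pow, hG', hH']
  refine ⟨A, ⟨S, rfl⟩, G', H', ⟨t₀, ht⟩, ⟨x₀, hx⟩, f, hG', hH', ?_, ?_, ?_, ?_⟩
  · apply Polynomial.map_injective (mapRingHom ψ) (Polynomial.map_injective ψ hval)
    rw [hFF, hGH, hF]
  · apply Polynomial.map_injective ψ hval
    rw [map_evalRingHom, hGH]
    rw [Polynomial.map_mul, Polynomial.map_pow, Polynomial.map_sub, Polynomial.map_X,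
      Polynomial.map_C, hff]
    exact hN.1
  · have h1 : f₁.Separable := (separable_map _).1 hN.2.1
    rw [← hff] at h1
    set L' : FractionRing A →+* L := IsFractionRing.lift (K := FractionRing A) hval with hL
    have h3 : L'.comp (algebraMap A (FractionRing A)) = ψ := by
      ext x
      rw [RingHom.comp_apply, hL, IsFractionRing.lift_algebraMap]
    rw [← separable_map L', Polynomial.map_map, h3]
    exact h1
  · intro h
    apply hN.2.2
    have h1 := congrArg ψ h
    rw [map_zero, ← Polynomial.eval_map_apply, hff] at h1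
    exact h1

end ring

/-- `H_W`. -/
theorem h_W (hData : H_Data) (hStrong : W_Strong) (hTr : W_Tr) (hIrr : H_Irr) (hG : H_FewG)
    (hSpread : X_Spread) : H_W := by
  classical
  intro K _ _ rr g hg F φ hmon hdegF G₀ H₀ hFGH hGen ⟨t₀, x₀, f₁, hNode⟩ hIrrF hφ G hG0 ε hε
  obtain ⟨A, hFG, GA, HA, tA, xA, fA, hGA, hHA, hFA', hNA⟩ :=
    exists_ringE F G₀ H₀ hFGH t₀ x₀ f₁ hNode
  have hval : Function.Injective (A.val : A →+* (Cl K rr)) := Subtype.val_injective
  have hRL : Function.Injective (algebraMap (Rp K rr) (Cl K rr)) := by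
    rw [IsScalarTower.algebraMap_eq (Rp K rr) (FractionRing (Rp K rr)) (Cl K rr)]
    exact (algebraMap (FractionRing (Rp K rr)) (Cl K rr)).injective.comp (IsFractionRing.injective (Rp K rr) _)
  have h1 : Function.Injective (algebraMap (Rp K rr) A) := by
    intro x y hxy
    exact hRL (congrArg (fun z : A => (z : (Cl K rr))) hxy)
  have h2 : Algebra.FiniteType (Rp K rr) A := (Subalgebra.fg_iff_finiteType A).mp hFG
  have hCZ : CharZero A := charZero_of_injective_algebraMap h1
  have hCR := countable_Rp K rr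
  have hCt : Countable A := countable_ft (Rp K rr) A
  -- the family over `A`
  set FA : A[X][X] := F.map (mapRingHom (algebraMap (Rp K rr) A)) with hFA
  have hGenA : GenE g GA HA := by
    apply genE_down (A.val : A →+* (Cl K rr)) hval
    rw [hGA, hHA]
    exact hGen
  obtain ⟨D, P, S, hFam, hOk⟩ := hData A g hg GA HA hGenA tA xA fA hNA
  have hStr : (D.map (algebraMap A (FractionRing A))).Strong := by
    have k1 := famE_map (A.val : A →+* (Cl K rr)) hval hFam
    have k2 := ok_inj D hOk (A.val : A →+* (Cl K rr)) hval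
    rw [hGA, hHA] at k1
    have k3 := hIrr (Cl K rr) g hg _ _ _ _ _ k1 k2 hIrrF
    have k4 := hStrong (Cl K rr) g hg _ k2 k3
    exact hTr A g D hOk (Cl K rr) (FractionRing A) _ _ hval
      (IsFractionRing.injective A (FractionRing A)) k4
  have hφ0 : φ ≠ 0 := by
    intro h
    rw [h, natDegree_zero] at hφ
    omega
  have hl0 : φ.leadingCoeff ≠ 0 := leadingCoeff_ne_zero.2 hφ0
  have hGA0 : MvPolynomial.map (mapRingHom (algebraMap (Rp K rr) A)) G ≠ 0 := by
    intro h
    apply hG0
    apply MvPolynomial.map_injective (mapRingHom (algebraMap (Rp K rr) A)) (map_injective _ h1)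
    rw [h, map_zero]
  obtain ⟨H, hH0, hH⟩ := A2 A g _ hGA0
  set d := φ.natDegree with hd
  have hdpos : (0 : ℝ) < d := by exact_mod_cast hφ
  -- the discriminant
  have hsepF : (F.map (algebraMap (Rp K rr)[X] (FractionRing (Rp K rr)[X]))).Separable := by
    apply sep_down (algebraMap (Rp K rr) (Cl K rr)) hRL
    rw [hFGH]
    exact hGen.2.2.2
  obtain ⟨u, w, dsc, hdsc, huw⟩ := sep_clear F hsepF
  have hdl : dsc.leadingCoeff ≠ 0 := leadingCoeff_ne_zero.2 hdsc
  obtain ⟨p₀, a₀, ha₀, hfew⟩ := hG g hg A GA HA D P S hFam hOk hStr H hH0 (ε / (2 * d))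
    (by positivity)
  obtain ⟨c₀, hc₀, hsp⟩ := hSpread (Rp K rr) A h1 h2 a₀ ha₀
  refine ⟨c₀ * φ.leadingCoeff * dsc.leadingCoeff, mul_ne_zero (mul_ne_zero hc₀ hl0) hdl, ?_⟩
  obtain ⟨N, hN⟩ := exists_nat_gt (2 * dsc.natDegree * d / ε : ℝ)
  have h20 : (2 : 𝓞 K) ≠ 0 := two_ne_zero
  refine (((finite_mem (K := K) 2 h20).union (finite_le (K := K) p₀)).union
    (finite_le (K := K) N)).subset ?_
  rintro v ⟨hv, -, s, hsc, hv'⟩
  by_contra hno
  simp only [Set.mem_union, Set.mem_ofPred_eq, not_or, not_le] at hno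
  obtain ⟨⟨h2v, hp0⟩, hpN⟩ := hno
  rw [lt_iff_not_ge] at hv'
  apply hv'
  set p := Ideal.absNorm v.asIdeal with hp
  have hFp : Fact p.Prime := ⟨hv⟩
  have hcharκ := charP_res v hv
  rw [← hp] at hcharκ
  set κ := v.asIdeal.ResidueField with hκ
  set ψ : (Rp K rr) →+* κ := (algebraMap (𝓞 K) κ).comp (evs s) with hψ
  have hψs : Function.Surjective ψ := by
    have hmax : v.asIdeal.IsMaximal := v.isMaximal
    have k1 : Function.Surjective (algebraMap (𝓞 K) κ) :=
      v.asIdeal.algebraMap_residueField_surjective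
    refine k1.comp ?_
    intro x
    exact ⟨MvPolynomial.C x, MvPolynomial.eval_C x⟩
  have hψe : ∀ x : (Rp K rr), ψ x = algebraMap (𝓞 K) κ (evs s x) := fun x => rfl
  have hψc : ψ (c₀ * φ.leadingCoeff * dsc.leadingCoeff) ≠ 0 := by
    rw [hψe, Ne, Ideal.algebraMap_residueField_eq_zero]
    exact hsc
  rw [map_mul, map_mul] at hψc
  have hψ1 : ψ c₀ ≠ 0 := left_ne_zero_of_mul (left_ne_zero_of_mul hψc)
  have hψ2 : ψ φ.leadingCoeff ≠ 0 := right_ne_zero_of_mul (left_ne_zero_of_mul hψc)
  have hψ3 : ψ dsc.leadingCoeff ≠ 0 := right_ne_zero_of_mul hψc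
  obtain ⟨k, hk, χ, ι', hcomp, hχ⟩ := hsp κ ψ hψs hψ1
  have hcn := card_res v
  rw [← hp] at hcn
  have hchar : CharP k p := charP_of_injective_ringHom ι'.injective p
  have hfinite : Finite κ := Nat.finite_of_card_ne_zero (by rw [hcn]; exact hv.ne_zero)
  have : Fintype κ := Fintype.ofFinite _
  rw [Nat.card_eq_fintype_card] at hcn
  have hpow : ∀ t : κ, t ^ p = t := fun t => by
    rw [← hcn]
    exact FiniteField.pow_card t
  set Fκ : κ[X][X] := F.map (mapRingHom ψ) with hFκ
  set Fk : k[X][X] := FA.map (mapRingHom χ) with hFk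
  have hFkk : Fκ.map (mapRingHom ι') = Fk := by
    rw [hFκ, hFk, hFA, Polynomial.map_map, Polynomial.map_map, mapRingHom_comp, mapRingHom_comp,
      hcomp]
  set dκ : κ[X] := dsc.map ψ with hdκ
  have hdκ0 : dκ ≠ 0 := map_ne ψ dsc hψ3
  -- the bad members
  set φs : (𝓞 K)[X] := φ.map (evs s) with hφs
  have hφψ : φs.map (algebraMap (𝓞 K) κ) = φ.map ψ := by
    rw [hφs, Polynomial.map_map]
  set Fs : (𝓞 K)[X][X] := F.map (mapRingHom (evs s)) with hFs
  have hFsκ : Fs.map (mapRingHom (algebraMap (𝓞 K) κ)) = Fκ := by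
    rw [hFs, hFκ, Polynomial.map_map, mapRingHom_comp]
  set r : ℕ → κ := fun t => algebraMap (𝓞 K) κ (φs.eval (t : 𝓞 K)) with hr
  obtain ⟨Z1, hZ1⟩ : ∃ Z1 : Finset κ, Z1 = dκ.roots.toFinset := ⟨_, rfl⟩
  obtain ⟨Z2, hZ2⟩ : ∃ Z2 : Finset κ, Z2 =
    univ.filter (fun s => MvPolynomial.eval₂ ((evalRingHom (ι' s)).comp (mapRingHom χ))
      (fun u : Fin g × Fin g => (Yh p g g Fk u.1 u.2).eval (ι' s)) H = 0) :=
    ⟨_, rfl⟩
  set Z : Finset κ := Z1 ∪ Z2 with hZ
  have hZcard : (Z.card : ℝ) ≤ dsc.natDegree + ε / (2 * d) * p := by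
    have e1 : Z1.card ≤ dsc.natDegree := by
      rw [hZ1]
      exact (Multiset.toFinset_card_le _).trans ((card_roots' _).trans natDegree_map_le)
    have e3 := hfew p k χ hp0.le hχ (Z2.image ι') (by
        intro t ht
        obtain ⟨s, hs, rfl⟩ := Finset.mem_image.1 ht
        rw [hZ2, Finset.mem_filter] at hs
        refine ⟨by rw [← map_pow, hpow], ?_⟩
        rw [← hFA', ← hFk]
        exact hs.2)
    rw [Finset.card_image_of_injective _ ι'.injective] at e3
    have e4 : (Z.card : ℝ) ≤ (Z1.card : ℝ) + Z2.card := by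
      exact_mod_cast Finset.card_union_le _ _
    refine e4.trans (add_le_add ?_ e3)
    exact_mod_cast e1
  have hbad : ∀ t : ℕ, ¬ GoodE g F φ G v s t → r t ∈ Z := by
    intro t ht
    by_contra hcon
    apply ht
    rw [hZ, Finset.mem_union, hZ1, hZ2, Finset.mem_filter, Multiset.mem_toFinset, not_or,
      not_and, mem_roots hdκ0, IsRoot.def] at hcon
    have hc1 : dκ.eval (r t) ≠ 0 := hcon.1
    have hc2 := hcon.2 (Finset.mem_univ _)
    have hrd : rd v (membF Fs φs t) = Fκ.map (evalRingHom (r t)) := by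
      unfold rd membF
      rw [map_evalRingHom, hFsκ]
    have hrk : (rd v (membF Fs φs t)).map ι' = Fk.map (evalRingHom (ι' (r t))) := by
      rw [hrd, map_evalRingHom, hFkk]
    -- the Hasse-Witt matrix
    have hW : ∀ i j : Fin g, ι' (hasseWitt p g (rd v (membF Fs φs t)) i j) =
        (Yh p g g Fk i j).eval (ι' (r t)) := by
      intro i j
      rw [hasseWitt_map, hrk, Yh_eval' p g Fk _ hv.pos]
      rfl
    have hnot := fun h => hc2 (hH k ((evalRingHom (ι' (r t))).comp (mapRingHom χ))
      (fun u : Fin g × Fin g => (Yh p g g Fk u.1 u.2).eval (ι' (r t))) h)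
    rw [imp_false, not_or, not_or] at hnot
    obtain ⟨hn1, hn2, -⟩ := hnot
    refine ⟨⟨h2v, ?_, ?_, ?_⟩, ?_⟩
    · show (rd v (membF Fs φs t)).natDegree = _
      rw [hrd, hFκ, (hmon.map _).natDegree_map, hmon.natDegree_map, hdegF]
    · show (rd v (membF Fs φs t)).Separable
      have k1 := sep_map ((evalRingHom (r t)).comp (mapRingHom ψ)) F u w dsc huw
        (by
          rw [RingHom.comp_apply, coe_mapRingHom, coe_evalRingHom]
          exact hc1)
      rwa [hrd, hFκ, Polynomial.map_map]
    · intro hdet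
      apply hn1
      have hdet' : ι' ((hasseWitt p g (rd v (membF Fs φs t))).det) = 0 := by
        rw [show (hasseWitt p g (rd v (membF Fs φs t))).det = 0 from hdet, map_zero]
      rw [RingHom.map_det] at hdet'
      rw [← hdet']
      congr 1
      ext i j
      rw [Matrix.of_apply, RingHom.mapMatrix_apply, Matrix.map_apply, hW]
    · intro hav
      have h5 : ∀ W : Fin g × Fin g → k,
          MvPolynomial.eval₂ ((evalRingHom (ι' (r t))).comp (mapRingHom χ)) W
            (MvPolynomial.map (mapRingHom (algebraMap (Rp K rr) A)) G) =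
          MvPolynomial.eval₂ (ι'.comp ((algebraMap (𝓞 K) κ).comp
            (evalRingHom (φs.eval (t : 𝓞 K))))) W
            (MvPolynomial.map (mapRingHom (evs s)) G) := by
        intro W
        rw [MvPolynomial.eval₂_map, MvPolynomial.eval₂_map]
        congr 1
        refine Polynomial.ringHom_ext (fun x => ?_) ?_
        · simp only [RingHom.comp_apply, coe_mapRingHom, map_C, coe_evalRingHom, eval_C]
          exact (RingHom.congr_fun hcomp x)
        · simp only [RingHom.comp_apply, coe_mapRingHom, map_X, coe_evalRingHom, eval_X]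
          rfl
      have h6 := congrArg ι' hav
      rw [map_zero, MvPolynomial.eval₂_comp_left] at h6
      apply hn2
      rw [h5, ← h6]
      congr 1
      funext u
      exact (hW u.1 u.2).symm
  have hfib : ∀ s' : κ, (((range p).filter fun t : ℕ => ¬ GoodE g F φ G v s t).filter
      (fun t => r t = s')).card ≤ d := by
    intro s'
    have hdegφ : (φ.map ψ).natDegree = d := natDegree_map_of_leadingCoeff_ne_zero _ hψ2
    have hne : φ.map ψ - C s' ≠ 0 := by
      intro h
      rw [sub_eq_zero] at h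
      rw [h, natDegree_C] at hdegφ
      omega
    have hdeg2 : (φ.map ψ - C s').natDegree ≤ d := by
      rw [natDegree_sub_C, hdegφ]
    have hinjOn : Set.InjOn (fun t : ℕ => (t : κ)) (range p : Set ℕ) := by
      intro x hx y hy hxy
      rw [Finset.coe_range, Set.mem_Iio] at hx hy
      have := (CharP.natCast_eq_natCast κ p).1 hxy
      rw [Nat.ModEq, Nat.mod_eq_of_lt hx, Nat.mod_eq_of_lt hy] at this
      exact this
    have hsub : (((range p).filter fun t : ℕ => ¬ GoodE g F φ G v s t).filter
        (fun t => r t = s')).image (fun t : ℕ => (t : κ)) ⊆ (φ.map ψ - C s').roots.toFinset := by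
      intro x hx
      obtain ⟨t, ht, rfl⟩ := Finset.mem_image.1 hx
      have hts := (Finset.mem_filter.1 ht).2
      rw [Multiset.mem_toFinset, mem_roots hne, IsRoot.def, eval_sub, eval_C, sub_eq_zero,
        ← hts, hr]
      simp only
      rw [← Polynomial.eval₂_at_apply, Polynomial.eval₂_eq_eval_map, map_natCast, hφψ]
    calc _ = ((((range p).filter fun t : ℕ => ¬ GoodE g F φ G v s t).filter
        (fun t => r t = s')).image (fun t : ℕ => (t : κ))).card := by
          rw [Finset.card_image_of_injOn]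
          refine hinjOn.mono ?_
          intro t ht
          exact Finset.mem_coe.2 (Finset.mem_filter.1 (Finset.mem_filter.1
            (Finset.mem_coe.1 ht)).1).1
      _ ≤ (φ.map ψ - C s').roots.toFinset.card := Finset.card_le_card hsub
      _ ≤ (φ.map ψ - C s').roots.card := Multiset.toFinset_card_le _
      _ ≤ (φ.map ψ - C s').natDegree := card_roots' _
      _ ≤ d := hdeg2
  have hcount : ((range p).filter fun t : ℕ => ¬ GoodE g F φ G v s t).card ≤ d * Z.card := by
    refine (Finset.card_le_mul_card_image (f := r) _ d (fun s _ => hfib s)).trans ?_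
    refine Nat.mul_le_mul_left _ (Finset.card_le_card ?_)
    intro s hs
    obtain ⟨t, ht, rfl⟩ := Finset.mem_image.1 hs
    exact hbad t (Finset.mem_filter.1 ht).2
  have hcount' : ((((range p).filter fun t : ℕ => ¬ GoodE g F φ G v s t).card : ℕ) : ℝ) ≤
      d * Z.card := by
    exact_mod_cast hcount
  refine hcount'.trans ?_
  have hpN' : (N : ℝ) < p := by exact_mod_cast hpN
  have h6 : 2 * dsc.natDegree * d / ε < p := hN.trans hpN'
  rw [div_lt_iff₀ hε] at h6
  calc (d : ℝ) * Z.card ≤ d * (dsc.natDegree + ε / (2 * d) * p) :=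
        mul_le_mul_of_nonneg_left hZcard hdpos.le
    _ = dsc.natDegree * d + ε * p / 2 := by field_simp
    _ ≤ ε * p := by linarith

end Pool.Agent.Helper4.HX
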